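import Mathlib

set_option autoImplicit false

namespace Pool.Agent.Results.MP_cb51c9_co.GreedySet

open Finset

/-- `S` is free of `5w + 2x = 5y + 2z`. -/
def Free (S : Set ℕ) : Prop :=
  ¬ ∃ w ∈ S, ∃ x ∈ S, ∃ y ∈ S, ∃ z ∈ S, 5 * w + 2 * x = 5 * y + 2 * z ∧ (w, x) ≠ (y, z)

/-- `g` is the greedy sequence: `g 0 = 0` and `g (i + 1)` is the least integer `> g i` keeping
`{g 0, …, g i, ·}` free. -/
def Greedy (g : ℕ → ℕ) : Prop :=
  g 0 = 0 ∧ ∀ i, IsLeast {t | g i < t ∧ Free (insert t (g '' Set.Iic i))} (g (i + 1))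

/-- `a 0 = 0`, `a i = ⌊(c + 7 ∑_{j < i} a j) / 2⌋`. For `c = 5` this is the sequence of the
problem (0, 2, 9, 41, …); for `c = 6` it is `⌈(5 + 7 ∑_{j < i} a j) / 2⌉` (0, 3, 13, 59, …). -/
def a (c : ℕ) : ℕ → ℕ
  | 0 => 0
  | i + 1 => (c + 7 * ∑ j : Fin (i + 1), a c j) / 2
decreasing_by exact j.isLt

/-- finite sums of distinct terms -/
def A (c : ℕ) : Set ℕ := {s | ∃ F : Finset ℕ, s = ∑ j ∈ F, a c j}

/-- `{5x + y : x ∈ A, 0 ≤ y ≤ 4}` -/
def H (c : ℕ) : Set ℕ := {n | ∃ x ∈ A c, ∃ y ≤ 4, n = 5 * x + y}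

def T (i : ℕ) : ℕ := ∑ j ∈ range i, a 6 j

def In (i s : ℕ) : Prop := ∃ F ⊆ range i, s = ∑ j ∈ F, a 6 j

theorem a_succ (i : ℕ) : a 6 (i + 1) = (6 + 7 * T (i + 1)) / 2 := by
  rw [a, T, Finset.sum_range]

theorem T_succ (i : ℕ) : T (i + 1) = T i + a 6 i := Finset.sum_range_succ _ _

theorem T_one : T 1 = 0 := by simp [T, a]

theorem le_T (i : ℕ) : i ≤ T (i + 1) := by
  induction i with
  | zero => omega
  | succ i ih =>
    have := T_succ (i + 1)
    have := a_succ i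
    omega

theorem In_le {i s : ℕ} (h : In i s) : s ≤ T i := by
  obtain ⟨F, hF, rfl⟩ := h
  exact Finset.sum_le_sum_of_subset hF

theorem In_mono {i j s : ℕ} (h : In i s) (hij : i ≤ j) : In j s := by
  obtain ⟨F, hF, rfl⟩ := h
  exact ⟨F, hF.trans (Finset.range_mono hij), rfl⟩

theorem In_add {i s : ℕ} (h : In i s) : In (i + 1) (a 6 i + s) := by
  obtain ⟨F, hF, rfl⟩ := h
  have hi : i ∉ F := fun h => by simpa using hF h
  refine ⟨insert i F, ?_, by rw [Finset.sum_insert hi]⟩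
  rw [Finset.range_add_one]
  exact Finset.insert_subset_insert _ hF

theorem In_succ {i s : ℕ} (h : In (i + 1) s) : ∃ s', In i s' ∧ (s = s' ∨ s = a 6 i + s') := by
  obtain ⟨F, hF, rfl⟩ := h
  refine ⟨_, ⟨F.erase i, fun j hj => ?_, rfl⟩, ?_⟩
  · have h1 := Finset.mem_erase.1 hj
    have h2 := Finset.mem_range.1 (hF h1.2)
    exact Finset.mem_range.2 (by omega)
  · by_cases hi : i ∈ F
    · exact Or.inr (Finset.add_sum_erase _ _ hi).symm
    · rw [Finset.erase_eq_of_notMem hi]; exact Or.inl rfl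

theorem free_aux (i : ℕ) : ∀ p q p' q' e e' : ℕ, In (i + 1) p → In (i + 1) q → In (i + 1) p' →
    In (i + 1) q' → e ≤ 4 → e' ≤ 4 → 5 * p' + e + 2 * q = 5 * q' + e' + 2 * p → p = q := by
  induction i with
  | zero =>
    intro p q p' q' e e' h1 h2 _ _ _ _ _
    have := In_le h1
    have := In_le h2
    have := T_one
    simp only [zero_add] at *
    omega
  | succ i ih =>
    intro p q p' q' e e' h1 h2 h3 h4 he he' h
    obtain ⟨p0, h1, k1⟩ := In_succ h1
    obtain ⟨q0, h2, k2⟩ := In_succ h2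
    obtain ⟨p1, h3, k3⟩ := In_succ h3
    obtain ⟨q1, h4, k4⟩ := In_succ h4
    have := ih p0 q0 p1 q1 e e' h1 h2 h3 h4 he he'
    have := In_le h1
    have := In_le h2
    have := In_le h3
    have := In_le h4
    have := a_succ i
    omega

theorem cover (i : ℕ) : ∀ v : ℤ, -5 * (T (i + 1) : ℤ) - 4 ≤ v → v ≤ 7 * (T (i + 1) : ℤ) + 4 →
    ∃ c p q : ℕ, In (i + 1) c ∧ In (i + 1) p ∧ In (i + 1) q ∧
      2 * (c : ℤ) + 5 * (p - q) - 4 ≤ v ∧ v ≤ 2 * (c : ℤ) + 5 * (p - q) + 4 := by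
  have h0 : ∀ i, In i 0 := fun i => ⟨∅, Finset.empty_subset _, rfl⟩
  induction i with
  | zero =>
    intro v h1 h2
    rw [zero_add, T_one] at h1 h2
    exact ⟨0, 0, 0, h0 _, h0 _, h0 _, by simpa using h1, by simpa using h2⟩
  | succ i ih =>
    intro v h1 h2
    have e1 := a_succ i
    have e2 := T_succ (i + 1)
    have m : ∀ {s}, In (i + 1) s → In (i + 1 + 1) s := fun h => In_mono h (Nat.le_succ _)
    generalize hb : a 6 (i + 1) = b at e1 e2
    by_cases c1 : v + 5 * b ≤ 7 * (T (i + 1) : ℤ) + 4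
    · obtain ⟨c, p, q, k1, k2, k3, k4, k5⟩ := ih (v + 5 * b) (by omega) c1
      exact ⟨c, p, _, m k1, m k2, In_add k3, by rw [hb]; omega, by rw [hb]; omega⟩
    by_cases c2 : v + 3 * b ≤ 7 * (T (i + 1) : ℤ) + 4
    · obtain ⟨c, p, q, k1, k2, k3, k4, k5⟩ := ih (v + 3 * b) (by omega) c2
      exact ⟨_, p, _, In_add k1, m k2, In_add k3, by rw [hb]; omega, by rw [hb]; omega⟩
    by_cases c3 : v ≤ 7 * (T (i + 1) : ℤ) + 4
    · obtain ⟨c, p, q, k1, k2, k3, k4, k5⟩ := ih v (by omega) c3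
      exact ⟨c, p, q, m k1, m k2, m k3, k4, k5⟩
    by_cases c4 : v - 2 * b ≤ 7 * (T (i + 1) : ℤ) + 4
    · obtain ⟨c, p, q, k1, k2, k3, k4, k5⟩ := ih (v - 2 * b) (by omega) c4
      exact ⟨_, p, q, In_add k1, m k2, m k3, by rw [hb]; omega, by rw [hb]; omega⟩
    by_cases c5 : v - 5 * b ≤ 7 * (T (i + 1) : ℤ) + 4
    · obtain ⟨c, p, q, k1, k2, k3, k4, k5⟩ := ih (v - 5 * b) (by omega) c5
      exact ⟨c, _, q, m k1, In_add k2, m k3, by rw [hb]; omega, by rw [hb]; omega⟩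
    obtain ⟨c, p, q, k1, k2, k3, k4, k5⟩ := ih (v - 7 * b) (by omega) (by omega)
    exact ⟨_, _, q, In_add k1, In_add k2, m k3, by rw [hb]; omega, by rw [hb]; omega⟩

def Blocked (i n : ℕ) : Prop := ∃ w x y, In i (w / 5) ∧ In i (x / 5) ∧ In i (y / 5) ∧
  w < n ∧ x < n ∧ y < n ∧ 5 * w + 2 * x = 5 * y + 2 * n

theorem top (i n : ℕ) (h1 : T (i + 1) < n / 5) (h2 : n / 5 < a 6 (i + 1)) :
    Blocked (i + 1) n := by
  have e1 := a_succ i
  obtain ⟨c, p, q, k1, k2, k3, k4, k5⟩ := cover i (2 * (n / 5 : ℕ)) (by omega) (by omega)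
  have := In_le k1
  have := In_le k2
  have := In_le k3
  refine ⟨5 * p + (2 * (n / 5) + 5 * q - (2 * c + 5 * p)), 5 * c + n % 5,
    5 * q + (2 * c + 5 * p - (2 * (n / 5) + 5 * q)), ?_, ?_, ?_, by omega, by omega, by omega,
    by omega⟩
  · convert k2 using 1; omega
  · convert k1 using 1; omega
  · convert k3 using 1; omega

theorem block (i : ℕ) : ∀ n, n / 5 < a 6 (i + 1) → ¬ In (i + 1) (n / 5) → Blocked (i + 1) n := by
  induction i with
  | zero =>
    intro n h1 h2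
    refine top 0 n ?_ h1
    rw [zero_add, T_one]
    refine Nat.pos_of_ne_zero fun h => h2 ?_
    rw [h]
    exact ⟨∅, Finset.empty_subset _, rfl⟩
  | succ i ih =>
    intro n h1 h2
    have m : ∀ {s}, In (i + 1) s → In (i + 1 + 1) s := fun h => In_mono h (Nat.le_succ _)
    by_cases c1 : T (i + 1 + 1) < n / 5
    · exact top _ n c1 h1
    by_cases c2 : n / 5 < a 6 (i + 1)
    · obtain ⟨w, x, y, k1, k2, k3, k⟩ := ih n c2 fun h => h2 (m h)
      exact ⟨w, x, y, m k1, m k2, m k3, k⟩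
    have e1 := a_succ i
    have e2 := T_succ (i + 1)
    obtain ⟨w, x, y, k1, k2, k3, k⟩ := ih (n - 5 * a 6 (i + 1)) (by omega) fun h => h2 (by
      convert In_add h using 1; omega)
    refine ⟨5 * a 6 (i + 1) + w, 5 * a 6 (i + 1) + x, 5 * a 6 (i + 1) + y, ?_, ?_, ?_, by omega⟩
    · convert In_add k1 using 1; omega
    · convert In_add k2 using 1; omega
    · convert In_add k3 using 1; omega

theorem mem_H {n : ℕ} : n ∈ H 6 ↔ ∃ i, In (i + 1) (n / 5) := by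
  constructor
  · rintro ⟨x, ⟨F, hF⟩, y, hy, rfl⟩
    refine ⟨F.sup id, F, fun j hj => Finset.mem_range.2 (Nat.lt_succ_of_le ?_), by omega⟩
    exact Finset.le_sup (f := id) hj
  · rintro ⟨i, F, -, h⟩
    exact ⟨n / 5, ⟨F, h⟩, n % 5, by omega, by omega⟩

theorem H_free : Free (H 6) := by
  rintro ⟨w, hw, x, hx, y, hy, z, hz, h, hne⟩
  obtain ⟨i1, h1⟩ := mem_H.1 hw
  obtain ⟨i2, h2⟩ := mem_H.1 hx
  obtain ⟨i3, h3⟩ := mem_H.1 hy
  obtain ⟨i4, h4⟩ := mem_H.1 hz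
  have := free_aux (i1 + i2 + i3 + i4) (z / 5) (x / 5) (w / 5) (y / 5) (w % 5) (y % 5)
    (In_mono h4 (by omega)) (In_mono h2 (by omega)) (In_mono h1 (by omega))
    (In_mono h3 (by omega)) (by omega) (by omega) (by omega)
  exact hne (Prod.ext (by simp only; omega) (by simp only; omega))

theorem H_small {y : ℕ} (hy : y ≤ 4) : y ∈ H 6 := ⟨0, ⟨∅, rfl⟩, y, hy, by omega⟩

theorem H_inf : (H 6).Infinite := by
  refine Set.infinite_of_forall_exists_gt fun n => ⟨5 * a 6 (n + 1) + 0,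
    ⟨_, ⟨{n + 1}, by simp⟩, 0, by omega, rfl⟩, ?_⟩
  have := a_succ n
  have := le_T n
  omega

theorem greedy_nth : Greedy (Nat.nth (· ∈ H 6)) := by
  have hs := Nat.nth_strictMono (p := (· ∈ H 6)) H_inf
  have hr : Set.range (Nat.nth (· ∈ H 6)) = H 6 := Nat.range_nth_of_infinite H_inf
  refine ⟨Nat.nth_zero_of_zero (H_small (by omega)), fun i => ⟨⟨hs (Nat.lt_succ_self i), ?_⟩, ?_⟩⟩
  · rintro ⟨w, hw, x, hx, y, hy, z, hz, h⟩
    have sub : insert (Nat.nth (· ∈ H 6) (i + 1)) (Nat.nth (· ∈ H 6) '' Set.Iic i) ⊆ H 6 := by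
      rintro t (rfl | ⟨k, -, rfl⟩) <;> exact Nat.nth_mem_of_infinite H_inf _
    exact H_free ⟨w, sub hw, x, sub hx, y, sub hy, z, sub hz, h⟩
  · rintro t ⟨h1, h2⟩
    by_contra h3
    push Not at h3
    have key : ∀ u ∈ H 6, u ≤ t → u ∈ Nat.nth (· ∈ H 6) '' Set.Iic i := by
      intro u hu hut
      obtain ⟨k, rfl⟩ := hr.symm ▸ hu
      exact ⟨k, Nat.lt_succ_iff.1 (hs.lt_iff_lt.1 (hut.trans_lt h3)), rfl⟩
    have ht : t ∉ H 6 := by
      intro ht
      obtain ⟨k, hk, rfl⟩ := key t ht le_rfl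
      exact absurd (hs.monotone hk) (not_le.2 h1)
    obtain ⟨w, x, y, k1, k2, k3, l1, l2, l3, e⟩ := block t t (by
      have := a_succ t
      have := le_T t
      omega) fun h => ht (mem_H.2 ⟨_, h⟩)
    exact h2 ⟨w, Or.inr (key w (mem_H.2 ⟨_, k1⟩) l1.le), x, Or.inr (key x (mem_H.2 ⟨_, k2⟩) l2.le),
      y, Or.inr (key y (mem_H.2 ⟨_, k3⟩) l3.le), t, Or.inl rfl, e, fun h => by
        simp only [Prod.mk.injEq] at h; omega⟩

theorem greedy_unique {g g' : ℕ → ℕ} (h : Greedy g) (h' : Greedy g') : g = g' := by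
  funext n
  induction n using Nat.strong_induction_on with
  | _ n ih =>
    cases n with
    | zero => rw [h.1, h'.1]
    | succ i =>
      have e : g '' Set.Iic i = g' '' Set.Iic i :=
        Set.image_congr fun k hk => ih k (Nat.lt_succ_iff.2 hk)
      have h1 := h.2 i
      rw [e, ih i (Nat.lt_succ_self i)] at h1
      exact h1.unique (h'.2 i)

/-- The greedy sequence exists; its range is not the set built from the floor recursion of the
problem, and it is the set built from the same recursion with the ceiling. -/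
theorem result : (∃ g, Greedy g) ∧
    ∀ g, Greedy g → Set.range g ≠ H 5 ∧ Set.range g = H 6 := by
  refine ⟨⟨_, greedy_nth⟩, fun g hg => ?_⟩
  have hr : Set.range g = H 6 := by
    rw [greedy_unique hg greedy_nth]
    exact Nat.range_nth_of_infinite H_inf
  refine ⟨fun h => ?_, hr⟩
  have h10 : 10 ∈ H 6 := by
    rw [← hr, h]
    exact ⟨2, ⟨{1}, by simp [a]⟩, 0, by omega, rfl⟩
  exact H_free ⟨4, H_small le_rfl, 0, H_small (by omega), 0, H_small (by omega), 10, h10, rfl,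
    by simp⟩

end Pool.Agent.Results.MP_cb51c9_co.GreedySet
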